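import Pool.Agent.H977.CS.CFin

/-!
# Few radicands with many characters that do not oscillate at the tiny primes: radicands
-/

set_option autoImplicit false

namespace Pool.Agent.H977.CS

open Finset Filter NumberField Pool.Agent.H38R2.CG Pool.Agent.H38R2.CG2 Pool.Agent.H977.LQ
open Pool.Agent.R345.IX (Dof isFund_Dof dyadic)
open scoped Classical

/-- the primes up to `B` -/
noncomputable def PB (B : ℝ) : Finset ℕ := (Finset.Icc 1 ⌊B⌋₊).filter Nat.Prime

/-- the property of the radicand -/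
def GoodC (a κ e : ℝ) (d : ℕ) : Prop :=
  ∀ (K : Type) [Field K] [NumberField K], Module.finrank ℚ K = 2 → (∃ x : K, x ^ 2 = (d : K)) →
    ∀ c : nonZeroDivisors (Ideal (𝓞 K)) → ℂ, (∀ I, ‖c I‖ ≤ 1) →
      (((Finset.univ : Finset (Chr K)).filter (fun χ => ((Real.log d) ^ a) ^ (1 - κ) ≤
        ‖∑ p ∈ PB ((Real.log d) ^ a), lam c χ p‖)).card : ℝ) ≤ (d : ℝ) ^ e

/-- few exceptional discriminants give few exceptional radicands -/
theorem transferC (hN2 : P_N2) (a κ ν β ε : ℝ) (ha : 1 < a) (hκ2 : 2 * κ < 1 - 1 / a)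
    (hκ1 : κ < 1 - 1 / a) (hν : 0 < ν)
    (hν1 : ν ≤ 1) (hβ : 0 ≤ β) (hε : 0 < ε) (δ : ℝ) (hδ : 0 < δ) (hδ2 : δ ≤ 1 / 2) (X0 : ℕ)
    (hX0 : ∀ X ≥ X0, (((Finset.Ioc X (2 * X)).filter (fun D => IsFund D ∧
      BadC a κ (β + ε / 2) X D)).card : ℝ) ≤ (X : ℝ) ^ (1 - δ)) :
    ∃ C : ℝ, 0 < C ∧ ∀ X : ℕ, (((Finset.Icc 2 X).filter (fun d => Squarefree d ∧
      ¬ GoodC a κ (β + ε) d)).card : ℝ) ≤ C * (X : ℝ) ^ (1 - δ) := by
  have h_P_N0d : P_N0d := T_N0d
  obtain ⟨X1, hX1⟩ := Filter.eventually_atTop.1 (nums2 a κ ν 1 ha hκ2 hκ1 hν hν1 one_pos)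
  obtain ⟨X2, hX2⟩ := Filter.eventually_atTop.1
    (ERRh.ev_const (ε / 2) (by positivity) ((4 : ℝ) ^ (β + ε / 2)))
  -- a bad radicand gives a bad discriminant
  have key : ∀ Y : ℕ, X0 ≤ Y → X1 ≤ Y → X2 ≤ Y → 1 ≤ Y → ∀ d : ℕ, Y < d → d ≤ 2 * Y →
      Squarefree d → ¬ GoodC a κ (β + ε) d → ∀ X : ℕ, X1 ≤ X → X ≤ 4 * d → d ≤ 2 * X →
      X ≤ 4 * Y →
      IsFund (Dof d) ∧ BadC a κ (β + ε / 2) X (Dof d) := by
    intro Y _ _ hY2 hY1 d hd1 hd2 hsq hbad X hXX1 hX4 hdX hX4Y
    have hd : 1 < d := by omega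
    have hfund := isFund_Dof hd hsq
    refine ⟨hfund, ?_⟩
    unfold GoodC at hbad
    push Not at hbad
    obtain ⟨K, i1, i2, h2, hx, c, hc, hlt⟩ := hbad
    obtain ⟨-, -, -, -, -, -, -, -, hfin⟩ := hX1 X hXX1
    obtain ⟨g1, g2⟩ := hfin d (by
      have : (X : ℝ) ≤ 4 * d := by exact_mod_cast hX4
      linarith) (by exact_mod_cast hdX)
    have hdisc : NumberField.discr K = ((Dof d : ℕ) : ℤ) := by
      rw [h_P_N0d K d hd hsq h2 hx]
      unfold Dof
      split_ifs <;> push_cast <;> rfl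
    refine ⟨K, i1, i2, h2, hdisc, (PB ((Real.log d) ^ a)).filter (fun p => p ≠ 2), c, ?_, hc, ?_⟩
    · intro p hp
      obtain ⟨hp1, hp2⟩ := Finset.mem_filter.1 hp
      obtain ⟨hp3, hp4⟩ := Finset.mem_filter.1 hp1
      unfold PL
      rw [Finset.mem_filter, Finset.mem_Icc]
      have h5 : p ≤ YY a (Real.log X) := by
        have h6 : (p : ℝ) ≤ (Real.log d) ^ a :=
          (Nat.le_floor_iff' hp4.ne_zero).1 (Finset.mem_Icc.1 hp3).2
        have : (p : ℝ) ≤ (YY a (Real.log X) : ℕ) := h6.trans g1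
        exact_mod_cast this
      have := hp4.two_le
      exact ⟨⟨by omega, h5⟩, hp4⟩
    · intro hle
      refine absurd hle (not_le.2 (lt_of_le_of_lt ?_ (hlt.trans_le ?_)))
      · have hdr : (0 : ℝ) < d := by
          have : 0 < d := by omega
          exact_mod_cast this
        have h4d : (4 : ℝ) ^ (β + ε / 2) ≤ (d : ℝ) ^ (ε / 2) := hX2 d (by omega)
        calc (X : ℝ) ^ (β + ε / 2) ≤ (4 * (d : ℝ)) ^ (β + ε / 2) := by
              apply Real.rpow_le_rpow (Nat.cast_nonneg _) _ (by positivity)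
              exact_mod_cast hX4
          _ = (4 : ℝ) ^ (β + ε / 2) * (d : ℝ) ^ (β + ε / 2) :=
              Real.mul_rpow (by norm_num) hdr.le
          _ ≤ (d : ℝ) ^ (ε / 2) * (d : ℝ) ^ (β + ε / 2) := by gcongr
          _ = (d : ℝ) ^ (β + ε) := by
              rw [← Real.rpow_add hdr]
              congr 1
              ring
      · have hsub : (Finset.univ : Finset (Chr K)).filter (fun χ => ((Real.log d) ^ a) ^ (1 - κ) ≤
            ‖∑ p ∈ PB ((Real.log d) ^ a), lam c χ p‖) ⊆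
            (Finset.univ : Finset (Chr K)).filter (fun χ => E0 a κ X ≤
              ‖∑ p ∈ (PB ((Real.log d) ^ a)).filter (fun p => p ≠ 2), lam c χ p‖) := by
          intro χ hχ
          rw [Finset.mem_filter] at hχ ⊢
          refine ⟨Finset.mem_univ _, ?_⟩
          have h5 : ∑ p ∈ PB ((Real.log d) ^ a), lam c χ p =
              ∑ p ∈ (PB ((Real.log d) ^ a)).filter (fun p => p ≠ 2), lam c χ p +
              ∑ p ∈ (PB ((Real.log d) ^ a)).filter (fun p => ¬ p ≠ 2), lam c χ p :=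
            (Finset.sum_filter_add_sum_filter_not _ _ _).symm
          have h6 : ‖∑ p ∈ (PB ((Real.log d) ^ a)).filter (fun p => ¬ p ≠ 2), lam c χ p‖ ≤ 2 := by
            have h7 : (PB ((Real.log d) ^ a)).filter (fun p => ¬ p ≠ 2) ⊆ {2} := by
              intro p hp
              have := (Finset.mem_filter.1 hp).2
              rw [Finset.mem_singleton]
              exact not_not.1 this
            rcases Finset.subset_singleton_iff.1 h7 with h8 | h8
            · rw [h8, Finset.sum_empty, norm_zero]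
              norm_num
            · rw [h8, Finset.sum_singleton]
              exact norm_lam hN2 K (Dof d) hfund h2 hdisc 2 Nat.prime_two c hc χ
          have h9 := norm_add_le
            (∑ p ∈ (PB ((Real.log d) ^ a)).filter (fun p => p ≠ 2), lam c χ p)
            (∑ p ∈ (PB ((Real.log d) ^ a)).filter (fun p => ¬ p ≠ 2), lam c χ p)
          rw [← h5] at h9
          linarith [hχ.2]
        exact_mod_cast Finset.card_le_card hsub
  have hdy := dyadic (fun S => (S.filter (fun d => Squarefree d ∧ ¬ GoodC a κ (β + ε) d)).card)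
    (fun d => Squarefree d ∧ ¬ GoodC a κ (β + ε) d) (fun S => by congr) δ hδ hδ2
    (max (max X0 X1) (max X2 1)) (by
      intro Y hY
      have hY0 : X0 ≤ Y := le_trans (le_trans (le_max_left _ _) (le_max_left _ _)) hY
      have hY1 : X1 ≤ Y := le_trans (le_trans (le_max_right _ _) (le_max_left _ _)) hY
      have hY2 : X2 ≤ Y := le_trans (le_trans (le_max_left _ _) (le_max_right _ _)) hY
      have hY3 : 1 ≤ Y := le_trans (le_trans (le_max_right _ _) (le_max_right _ _)) hY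
      have hYr : (0 : ℝ) < Y := by exact_mod_cast hY3
      set S := (Finset.Ioc Y (2 * Y)).filter (fun d => Squarefree d ∧ ¬ GoodC a κ (β + ε) d) with hS
      set A := (Finset.Ioc Y (2 * Y)).filter
        (fun D => IsFund D ∧ BadC a κ (β + ε / 2) Y D) with hA
      set B := (Finset.Ioc (4 * Y) (2 * (4 * Y))).filter
        (fun D => IsFund D ∧ BadC a κ (β + ε / 2) (4 * Y) D) with hB
      have hA' := hX0 Y hY0
      have hB' := hX0 (4 * Y) (by omega)
      have hinj : S.card ≤ (A ∪ B).card := by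
        refine Finset.card_le_card_of_injOn Dof ?_ ?_
        · intro d hd
          rw [Finset.mem_coe] at hd ⊢
          obtain ⟨h1, h2, h3⟩ := Finset.mem_filter.1 hd
          obtain ⟨h4, h5⟩ := Finset.mem_Ioc.1 h1
          rw [Finset.mem_union]
          by_cases h : d % 4 = 1
          · left
            have hDof : Dof d = d := by unfold Dof; rw [if_pos h]
            have hk := key Y hY0 hY1 hY2 hY3 d h4 h5 h2 h3 Y hY1 (by omega) (by omega) (by omega)
            rw [hA, Finset.mem_filter, Finset.mem_Ioc]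
            exact ⟨by rw [hDof]; exact ⟨h4, h5⟩, hk⟩
          · right
            have hDof : Dof d = 4 * d := by unfold Dof; rw [if_neg h]
            have hk := key Y hY0 hY1 hY2 hY3 d h4 h5 h2 h3 (4 * Y) (by omega) (by omega)
              (by omega) (by omega)
            rw [hB, Finset.mem_filter, Finset.mem_Ioc]
            exact ⟨by rw [hDof]; omega, hk⟩
        · intro d _ d' _ hdd
          unfold Dof at hdd
          split_ifs at hdd <;> omega
      have h1 : (S.card : ℝ) ≤ A.card + B.card := by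
        exact_mod_cast hinj.trans (Finset.card_union_le _ _)
      have h4Y : (((4 * Y : ℕ) : ℝ)) ^ (1 - δ) ≤ 4 * (Y : ℝ) ^ (1 - δ) := by
        push_cast
        rw [Real.mul_rpow (by norm_num) hYr.le]
        apply mul_le_mul_of_nonneg_right _ (by positivity)
        calc (4 : ℝ) ^ (1 - δ) ≤ (4 : ℝ) ^ (1 : ℝ) :=
              Real.rpow_le_rpow_of_exponent_le (by norm_num) (by linarith)
          _ = 4 := Real.rpow_one 4
      show ((S.card : ℕ) : ℝ) ≤ 5 * (Y : ℝ) ^ (1 - δ)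
      linarith)
  exact hdy

/-- the exponent -/
noncomputable def gam (a κ : ℝ) : ℝ := max (κ / (1 - 1 / a)) (2 * κ + 1 / a - 1 / 2)

/-- **Main theorem.** -/
theorem main (a κ ε : ℝ) (ha : 1 < a) (hκ : 0 ≤ κ) (hκ2 : 2 * κ < 1 - 1 / a) (hε : 0 < ε) :
    ∃ δ C : ℝ, 0 < δ ∧ 0 < C ∧
    ∀ X : ℕ, (((Finset.Icc 2 X).filter (fun d => Squarefree d ∧
      ¬ GoodC a κ (gam a κ + ε) d)).card : ℝ) ≤ C * (X : ℝ) ^ (1 - δ) := by
  have h_P_N0 : P_N0 := T_N0
  have h_P_SPL : P_SPL := T_SPL h_P_N0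
  have h_P_N1 : P_N1 := T_N1 h_P_SPL
  have h_P_N2 : P_N2 := T_N2 h_P_SPL
  have h_P_KR : P_KR := T_KR
  have h_P_PV : P_PV := T_PV
  have h_P_N3a : P_N3a := T_N3a h_P_KR h_P_PV
  have h_P_N3b : P_N3b := T_N3b h_P_KR h_P_PV h_P_N3a
  have h_P_N3 : P_N3 := T_N3 h_P_N2 h_P_N3b
  have h_P_N4a : P_N4a := T_N4a
  have h_P_N4b : P_N4b := T_N4b
  have h_P_N4 : P_N4 := T_N4 h_P_N4a h_P_N4b
  have h_P_KF : P_KF := T_KF
  have h_P_N5b : P_N5b := T_N5b h_P_KF h_P_N4
  have h_P_N6 : P_N6 := T_N6 h_P_KF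
  have ha0 : 0 < a := by linarith
  have hb : 0 < 1 / a := by positivity
  have hb1 : 1 / a < 1 := by
    rw [div_lt_iff₀ ha0]
    linarith
  have hκ1 : κ < 1 - 1 / a := by linarith
  have ht : 0 < 1 - 1 / a := by linarith
  have hγ0 : 0 ≤ gam a κ := le_trans (div_nonneg hκ ht.le) (le_max_left _ _)
  obtain ⟨ν, hν, hν1, hγ⟩ : ∃ ν : ℝ, 0 < ν ∧ ν ≤ 1 ∧
      2 * (ν * κ) + max 0 (1 / 2 - ν * (1 - 1 / a)) ≤ gam a κ := by
    unfold gam
    rcases le_total (1 / 2) (1 - 1 / a) with h | h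
    · refine ⟨1 / (2 * (1 - 1 / a)), by positivity, ?_, ?_⟩
      · rw [div_le_one (by positivity)]
        linarith
      · refine le_trans (le_of_eq ?_) (le_max_left _ _)
        generalize 1 - 1 / a = t at ht
        have e1 : 1 / 2 - 1 / (2 * t) * t = 0 := by
          field_simp
          ring
        have e2 : 2 * (1 / (2 * t) * κ) = κ / t := by
          field_simp
        rw [e1, e2, max_self, add_zero]
    · refine ⟨1, one_pos, le_rfl, ?_⟩
      refine le_trans (le_of_eq ?_) (le_max_right _ _)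
      rw [max_eq_right (by linarith)]
      ring
  obtain ⟨δ, hδ, hδ2, X0, hX0⟩ := count_avg h_P_N0 h_P_N1 h_P_N2 h_P_N3 h_P_N4 h_P_KF h_P_N5b
    h_P_N6 h_P_N3a a κ ν ha hκ2 hκ1 hν hν1 (ε / 2) (by positivity)
  obtain ⟨C, hC, hfin⟩ := transferC h_P_N2 a κ ν (gam a κ) ε ha hκ2 hκ1 hν hν1 hγ0 hε
    δ hδ hδ2 (max X0 1) (by
      intro X hX
      refine le_trans ?_ (hX0 X (le_trans (le_max_left _ _) hX))
      have h1 : ((Finset.Ioc X (2 * X)).filter (fun D => IsFund D ∧
          BadC a κ (gam a κ + ε / 2) X D)) ⊆ ((Finset.Ioc X (2 * X)).filter (fun D =>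
          IsFund D ∧ BadC a κ (2 * (ν * κ) + max 0 (1 / 2 - ν * (1 - 1 / a)) + ε / 2) X D)) := by
        intro D hD
        rw [Finset.mem_filter] at hD ⊢
        obtain ⟨hD1, hD2, K, i1, i2, g1, g2, P0, c, g3, g4, g6⟩ := hD
        refine ⟨hD1, hD2, K, i1, i2, g1, g2, P0, c, g3, g4, fun hle => g6 (hle.trans ?_)⟩
        have hX1 : 1 ≤ X := le_trans (le_max_right _ _) hX
        have hXr : (1 : ℝ) ≤ X := by exact_mod_cast hX1
        exact Real.rpow_le_rpow_of_exponent_le hXr (by linarith)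
      exact_mod_cast Finset.card_le_card h1)
  exact ⟨δ, C, hδ, hC, hfin⟩

end Pool.Agent.H977.CS
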