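import Pool.Agent.H977.LQ.Num

/-!
# The parameters for the character sums
-/

set_option autoImplicit false

namespace Pool.Agent.H977.CS

open Filter Real Finset Pool.Agent.H977.LQ

theorem est2 (a κ ν : ℝ) (ha : 1 < a) (hκ2 : 2 * κ < 1 - 1 / a) (hκ1 : κ < 1 - 1 / a)
    (hν : 0 < ν) (hν1 : ν ≤ 1) : ∀ᶠ L : ℝ in atTop,
    32 * (kk ν a L : ℝ) * (YY a L : ℝ) ≤ (L ^ (a * (1 - κ)) / 4) ^ 2 ∧
    8 * (kk ν a L : ℝ) ≤ L ^ (a * (1 - κ)) / 4 ∧
    (∀ x : ℝ, L - 2 ≤ x → L ^ (a * (1 - κ)) / 4 + 2 ≤ (x ^ a) ^ (1 - κ)) := by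
  have ha0 : 0 < a := by linarith
  have hb : 0 < 1 / a := by positivity
  have hc1 : 1 < a * (1 - κ) := by
    have h1 : 1 / a < 1 - κ := by linarith
    rw [div_lt_iff₀ ha0] at h1
    linarith
  have hc2 : 0 < 2 * (a * (1 - κ)) - 1 - a := by
    have h1 : 2 * κ * a < (1 - 1 / a) * a := mul_lt_mul_of_pos_right hκ2 ha0
    have h2 : (1 - 1 / a) * a = a - 1 := by field_simp
    rw [h2] at h1
    linarith
  have l4 : Tendsto (fun L : ℝ => (L - 2) / L) atTop (nhds 1) := by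
    have h1 : Tendsto (fun L : ℝ => 1 - 2 / L) atTop (nhds (1 - 0)) :=
      tendsto_const_nhds.sub (tendsto_id.const_div_atTop _)
    rw [sub_zero] at h1
    refine h1.congr' ?_
    filter_upwards [eventually_gt_atTop 0] with L hL
    field_simp
  have l5 : Tendsto (fun L : ℝ => ((L - 2) / L) ^ (a * (1 - κ))) atTop (nhds 1) := by
    have h := l4.rpow_const (p := a * (1 - κ)) (Or.inl one_ne_zero)
    rwa [Real.one_rpow] at h
  have l6 : Tendsto (fun L : ℝ => L ^ (a * (1 - κ) - 1)) atTop atTop :=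
    tendsto_rpow_atTop (by linarith)
  have l7 : Tendsto (fun L : ℝ => L ^ (2 * (a * (1 - κ)) - 1 - a)) atTop atTop :=
    tendsto_rpow_atTop hc2
  filter_upwards [est a κ ν 1 ha hκ1 hν hν1 one_pos,
    l5.eventually (lt_mem_nhds (show (1 : ℝ) / 2 < 1 by norm_num)),
    l6.eventually_ge_atTop 32, l7.eventually_ge_atTop (1024 * 2 ^ a),
    Real.tendsto_log_atTop.eventually_ge_atTop 1, eventually_ge_atTop (8 : ℝ)]
    with L f0 f5 f6 f7 f8 f12
  obtain ⟨hk1, hk2, -⟩ := f0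
  set l := Real.log L with hldef
  have hL0 : 0 < L := by linarith
  have hL1 : 1 ≤ L := by linarith
  have hY1 : (L + 2) ^ a ≤ YY a L := Nat.le_ceil _
  have hY0 : (0 : ℝ) < YY a L := lt_of_lt_of_le (by positivity) hY1
  have hYlow : a * l ≤ Real.log (YY a L) := by
    have h1 := Real.log_le_log (by positivity) hY1
    rw [Real.log_rpow (by linarith)] at h1
    have h2 : l ≤ Real.log (L + 2) := Real.log_le_log hL0 (by linarith)
    nlinarith
  have hYlog1 : 1 ≤ Real.log (YY a L) := by nlinarith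
  have hYup : (YY a L : ℝ) ≤ 2 * (2 * L) ^ a := by
    have h2 : (YY a L : ℝ) < (L + 2) ^ a + 1 := Nat.ceil_lt_add_one (by positivity)
    have h3 : (L + 2) ^ a ≤ (2 * L) ^ a := Real.rpow_le_rpow (by linarith) (by linarith) ha0.le
    have h4 : (1 : ℝ) ≤ (2 * L) ^ a := Real.one_le_rpow (by linarith) ha0.le
    linarith
  have hkL : (kk ν a L : ℝ) ≤ L := by
    have hk0 : (0 : ℝ) ≤ kk ν a L := Nat.cast_nonneg _
    nlinarith
  have hLc : L ^ (a * (1 - κ)) = L ^ (a * (1 - κ) - 1) * L := by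
    rw [← Real.rpow_add_one hL0.ne']
    congr 1
    ring
  have h32 : 32 * L ≤ L ^ (a * (1 - κ)) := by
    rw [hLc]
    nlinarith
  refine ⟨?_, by linarith, ?_⟩
  · have e1 : (L ^ (a * (1 - κ)) / 4) ^ 2 =
        L ^ (2 * (a * (1 - κ)) - 1 - a) * (L * L ^ a) / 16 := by
      have h1 : L ^ (2 * (a * (1 - κ)) - 1 - a) * (L * L ^ a) = L ^ (a * (1 - κ)) *
          L ^ (a * (1 - κ)) := by
        rw [← Real.rpow_add hL0, ← Real.rpow_one_add' hL0.le (by linarith), ← Real.rpow_add hL0]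
        congr 1
        ring
      rw [h1]
      ring
    rw [e1]
    have hLa : 0 < L ^ a := Real.rpow_pos_of_pos hL0 _
    calc 32 * (kk ν a L : ℝ) * (YY a L : ℝ) ≤ 32 * L * (2 * (2 * L) ^ a) := by gcongr
      _ = (1024 * 2 ^ a) * (L * L ^ a) / 16 := by
          rw [Real.mul_rpow (by norm_num) hL0.le]
          ring
      _ ≤ _ := by gcongr
  · intro x hx1
    have hx0 : 0 < x := by linarith
    rw [← Real.rpow_mul hx0.le]
    have h1 : (L - 2) ^ (a * (1 - κ)) ≤ x ^ (a * (1 - κ)) :=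
      Real.rpow_le_rpow (by linarith) hx1 (by linarith)
    have h2 : ((L - 2) / L) ^ (a * (1 - κ)) * L ^ (a * (1 - κ)) = (L - 2) ^ (a * (1 - κ)) := by
      rw [← Real.mul_rpow (div_nonneg (by linarith) hL0.le) hL0.le, div_mul_cancel₀ _ hL0.ne']
    nlinarith

/-- the threshold for the sums -/
noncomputable def E0 (a κ : ℝ) (X : ℕ) : ℝ := (Real.log X) ^ (a * (1 - κ)) / 4

theorem nums2 (a κ ν η : ℝ) (ha : 1 < a) (hκ2 : 2 * κ < 1 - 1 / a) (hκ1 : κ < 1 - 1 / a)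
    (hν : 0 < ν) (hν1 : ν ≤ 1) (hη : 0 < η) : ∀ᶠ X : ℕ in atTop,
    1 ≤ kL ν a X ∧ ((YY a (Real.log X) : ℕ) : ℝ) ^ kL ν a X ≤ (X : ℝ) ^ ν ∧
    (400 : ℝ) ^ kL ν a X ≤ (X : ℝ) ^ η ∧
    (((PL a X).card.choose (kL ν a X) : ℕ) : ℝ) ≤ (X : ℝ) ^ (ν * (1 - 1 / a) + η) ∧
    (X : ℝ) ^ (ν * (1 - κ - 1 / a) - η) ≤ (E0 a κ X) ^ (kL ν a X) / (kL ν a X).factorial ∧
    0 < E0 a κ X ∧ 32 * (kL ν a X : ℝ) * ((PL a X).card : ℝ) ≤ (E0 a κ X) ^ 2 ∧
    8 * (kL ν a X : ℝ) ≤ E0 a κ X ∧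
    (∀ d : ℝ, (X : ℝ) / 4 ≤ d → d ≤ 2 * X → (Real.log d) ^ a ≤ YY a (Real.log X) ∧
      E0 a κ X + 2 ≤ ((Real.log d) ^ a) ^ (1 - κ)) := by
  have ht : Tendsto (fun X : ℕ => Real.log (X : ℝ)) atTop atTop :=
    Real.tendsto_log_atTop.comp tendsto_natCast_atTop_atTop
  have ha0 : 0 < a := by linarith
  filter_upwards [nums a κ ν η ha hκ1 hν hν1 hη, ht.eventually (est2 a κ ν ha hκ2 hκ1 hν hν1),
    ht.eventually (est a κ ν η ha hκ1 hν hν1 hη), eventually_ge_atTop 4, ht.eventually_ge_atTop 4]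
    with X hX hX2 hX3 hX4 hL4
  obtain ⟨q1, q2, q3, q4, -, q6⟩ := hX
  obtain ⟨r1, r2, r3⟩ := hX2
  obtain ⟨e1, -, -, -, e5, -, -⟩ := hX3
  have hXr : (4 : ℝ) ≤ X := by exact_mod_cast hX4
  have hX0 : (0 : ℝ) < X := by linarith
  set L := Real.log (X : ℝ) with hL
  have hL0 : 0 < L := by linarith
  have hkdef : kL ν a X = kk ν a L := rfl
  have hEdef : E0 a κ X = L ^ (a * (1 - κ)) / 4 := rfl
  have hLpos : 0 < L ^ (a * (1 - κ)) := Real.rpow_pos_of_pos hL0 _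
  have hE0 : 0 < E0 a κ X := by rw [hEdef]; positivity
  refine ⟨q1, q2, q3, q4, ?_, hE0, ?_, ?_, ?_⟩
  · rw [hkdef]
    set k := kk ν a L with hk
    have hk0 : (0 : ℝ) < k := by exact_mod_cast e1
    have h1 : (E0 a κ X / k) ^ k ≤ (E0 a κ X) ^ k / k.factorial := by
      rw [div_pow]
      apply div_le_div_of_nonneg_left (by positivity)
      · exact_mod_cast Nat.factorial_pos k
      · exact_mod_cast Nat.factorial_le_pow k
    refine le_trans ?_ h1
    rw [Real.rpow_def_of_pos hX0, ← Real.rpow_natCast, Real.rpow_def_of_pos (by positivity),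
      ← hL, mul_comm L, mul_comm (Real.log _)]
    apply Real.exp_le_exp.2
    refine e5.trans ?_
    apply mul_le_mul_of_nonneg_left _ hk0.le
    rw [Real.log_div hE0.ne' hk0.ne', hEdef, Real.log_div hLpos.ne' (by norm_num),
      Real.log_rpow hL0]
  · have r1' : 32 * (kk ν a L : ℝ) * (YY a L : ℝ) ≤ (E0 a κ X) ^ 2 := by
      rw [hEdef]
      exact r1
    refine le_trans ?_ r1'
    have h1 : ((PL a X).card : ℝ) ≤ YY a L := by
      have h2 : (PL a X).card ≤ YY a L := by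
        unfold PL
        refine (Finset.card_filter_le _ _).trans ?_
        rw [Nat.card_Icc, ← hL]
        omega
      exact_mod_cast h2
    rw [hkdef]
    exact mul_le_mul_of_nonneg_left h1 (by positivity)
  · rw [hEdef, hkdef]
    exact r2
  · intro d hd1 hd2
    obtain ⟨g1, -, -⟩ := q6 d hd1 hd2
    refine ⟨g1, ?_⟩
    rw [hEdef]
    apply r3
    have hlog4 : Real.log 4 ≤ 2 := by
      rw [show (4 : ℝ) = 2 ^ 2 by norm_num, Real.log_pow]
      have := Real.log_two_lt_d9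
      push_cast
      linarith
    have h1 : Real.log ((X : ℝ) / 4) ≤ Real.log d := Real.log_le_log (by positivity) hd1
    rw [Real.log_div hX0.ne' (by norm_num)] at h1
    linarith

end Pool.Agent.H977.CS
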