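import Pool.Agent.H977.CS.Char
import Pool.Agent.H977.CS.Num2
import Pool.Agent.H977.LQ.Fin

/-!
# Few radicands with many characters that do not oscillate at the tiny primes
-/

set_option autoImplicit false

namespace Pool.Agent.H977.CS

open Finset Filter NumberField Pool.Agent.H38R2.CG Pool.Agent.H38R2.CG2 Pool.Agent.H977.LQ
open Pool.Agent.R345.IX (Qz_two floor_two Lone_le Dof isFund_Dof dyadic)
open scoped Classical

/-- the characters of the class group -/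
abbrev Chr (K : Type) [Field K] [NumberField K] : Type :=
  AddChar (Additive (ClassGroup (𝓞 K))) ℂ

/-- the exceptional discriminants -/
def BadC (a κ e : ℝ) (X D : ℕ) : Prop := ∃ (K : Type) (_ : Field K) (_ : NumberField K),
  Module.finrank ℚ K = 2 ∧ NumberField.discr K = (D : ℤ) ∧
    ∃ (P0 : Finset ℕ) (c : nonZeroDivisors (Ideal (𝓞 K)) → ℂ), P0 ⊆ PL a X ∧
      (∀ I, ‖c I‖ ≤ 1) ∧
      ¬ ((((Finset.univ : Finset (Chr K)).filter
        (fun χ => E0 a κ X ≤ ‖∑ p ∈ P0, lam c χ p‖)).card : ℝ) ≤ (X : ℝ) ^ e)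

/-- few exceptional discriminants in a dyadic interval -/
theorem count_avg (hN0 : P_N0) (hN1 : P_N1) (hN2 : P_N2) (hN3 : P_N3) (h4 : P_N4) (hKF : P_KF)
    (h5b : P_N5b) (hN6 : P_N6) (hN3a : P_N3a) (a κ ν : ℝ) (ha : 1 < a)
    (hκ2 : 2 * κ < 1 - 1 / a) (hκ1 : κ < 1 - 1 / a) (hν : 0 < ν) (hν1 : ν ≤ 1) (ε : ℝ)
    (hε : 0 < ε) : ∃ δ : ℝ, 0 < δ ∧ δ ≤ 1 / 2 ∧ ∃ X0 : ℕ, ∀ X ≥ X0,
    (((Finset.Ioc X (2 * X)).filter (fun D => IsFund D ∧
      BadC a κ (2 * (ν * κ) + max 0 (1 / 2 - ν * (1 - 1 / a)) + ε) X D)).card : ℝ) ≤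
        (X : ℝ) ^ (1 - δ) := by
  obtain ⟨C, hC, hLone⟩ := Lone_le hN3a
  set η : ℝ := min (ε / 20) (1 / 4) with hη
  have hηpos : 0 < η := lt_min (by positivity) (by norm_num)
  have hη1 : η ≤ ε / 20 := min_le_left _ _
  have hη2 : η ≤ 1 / 4 := min_le_right _ _
  set γ : ℝ := 2 * (ν * κ) + max 0 (1 / 2 - ν * (1 - 1 / a)) with hγ
  have hγ1 : 2 * (ν * κ) + (1 / 2 - ν * (1 - 1 / a)) ≤ γ := by
    rw [hγ]
    have := le_max_right 0 (1 / 2 - ν * (1 - 1 / a))
    linarith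
  have hγ2 : 2 * (ν * κ) ≤ γ := by
    rw [hγ]
    have := le_max_left 0 (1 / 2 - ν * (1 - 1 / a))
    linarith
  refine ⟨η, hηpos, by linarith, ?_⟩
  rw [← Filter.eventually_atTop]
  have hpar := nums2 a κ ν η ha hκ2 hκ1 hν hν1 hηpos
  have hlog1 := ERRh.ev_log (η / 2) (by positivity)
  have hc1 := ERRh.ev_const (η / 2) (by positivity) (max (3072 * 16) (2 * C))
  filter_upwards [hpar, hlog1, hc1, eventually_ge_atTop 1] with X hX hl1 hk1 hX1
  obtain ⟨q1, q2, q3, q4, q5, q6, q7, q8, -⟩ := hX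
  have hXr : (1 : ℝ) ≤ X := by exact_mod_cast hX1
  have hX0 : (0 : ℝ) < X := by linarith
  have hlogX : 0 ≤ Real.log X := Real.log_natCast_nonneg X
  set k := kL ν a X with hk
  set S := (PL a X).powersetCard k with hS
  have hXη : 0 < (X : ℝ) ^ η := Real.rpow_pos_of_pos hX0 _
  have hXh : 0 < (X : ℝ) ^ (η / 2) := Real.rpow_pos_of_pos hX0 _
  have hsX : 0 < √(X : ℝ) := Real.sqrt_pos.2 hX0
  have hhalf : (X : ℝ) ^ (η / 2) * (X : ℝ) ^ (η / 2) = (X : ℝ) ^ η := by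
    rw [← Real.rpow_add hX0]; congr 1; ring
  set F : ℝ := ν * (1 - 1 / a) + η with hF
  have hScard : (S.card : ℝ) ≤ (X : ℝ) ^ F := by
    rw [hS, Finset.card_powersetCard]
    exact q4
  have hSm : ∀ s ∈ S, (∀ p ∈ s, p.Prime) ∧ s.card = k ∧ prodS s ≤ X := by
    intro s hs
    obtain ⟨hs1, hs2⟩ := Finset.mem_powersetCard.1 hs
    refine ⟨fun p hp => (PL_mem (hs1 hp)).1, hs2, ?_⟩
    have h1 : prodS s ≤ (YY a (Real.log X)) ^ k := by
      unfold prodS
      rw [← hs2]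
      exact Finset.prod_le_pow_card _ _ _ fun p hp => (PL_mem (hs1 hp)).2.2
    have h2 : (((YY a (Real.log X)) ^ k : ℕ) : ℝ) ≤ X := by
      push_cast
      refine q2.trans ?_
      calc (X : ℝ) ^ ν ≤ (X : ℝ) ^ (1 : ℝ) := Real.rpow_le_rpow_of_exponent_le hXr hν1
        _ = X := Real.rpow_one _
    have h3 : (YY a (Real.log X)) ^ k ≤ X := by exact_mod_cast h2
    exact h1.trans h3
  have h48 : (4 : ℝ) ^ k ≤ (X : ℝ) ^ η :=
    (pow_le_pow_left₀ (by norm_num) (by norm_num) _).trans q3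
  have h22 : (2 : ℝ) ^ k ≤ (X : ℝ) ^ η :=
    (pow_le_pow_left₀ (by norm_num) (by norm_num) _).trans q3
  -- the exceptional set
  let High : ℕ → Finset ℕ := fun r => (DD 2 r X 1).filter
    (fun D : ℕ => (X : ℝ) ^ (4 * η) * ((S.card : ℝ) ^ 2 / √(X : ℝ)) < off D S)
  have hHigh : ∀ r < Qz 2, ((High r).card : ℝ) * 16 ≤ (X : ℝ) ^ (1 - η) := by
    intro r hr
    rcases Nat.eq_zero_or_pos S.card with h0 | h0
    · have : High r = ∅ := by
        apply Finset.filter_eq_empty_iff.2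
        intro D _
        have hS0 : S = ∅ := Finset.card_eq_zero.1 h0
        rw [hS0]
        unfold off
        simp
      rw [this]
      simp only [Finset.card_empty, Nat.cast_zero, zero_mul]
      positivity
    · have h1 := high_card r X k hr hX1 S hSm ((X : ℝ) ^ (4 * η))
        (Real.rpow_pos_of_pos hX0 _) h0
      have h1' : ((High r).card : ℝ) * 16 ≤
          3072 * 4 ^ k * (1 + Real.log X) * X / (X : ℝ) ^ (4 * η) * 16 :=
        mul_le_mul_of_nonneg_right h1 (by norm_num)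
      refine h1'.trans ?_
      rw [div_mul_eq_mul_div, div_le_iff₀ (Real.rpow_pos_of_pos hX0 _), ← Real.rpow_add hX0]
      have h3072 : (3072 * 16 : ℝ) ≤ (X : ℝ) ^ (η / 2) := (le_max_left _ _).trans hk1
      calc 3072 * 4 ^ k * (1 + Real.log X) * X * 16
          = (3072 * 16) * 4 ^ k * (1 + Real.log X) * X := by ring
        _ ≤ (X : ℝ) ^ (η / 2) * (X : ℝ) ^ η * (X : ℝ) ^ (η / 2) * X := by gcongr
        _ = (X : ℝ) ^ (η / 2 + η + η / 2 + 1) := by
            rw [Real.rpow_add hX0 _ 1, Real.rpow_one, Real.rpow_add hX0, Real.rpow_add hX0]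
        _ ≤ _ := Real.rpow_le_rpow_of_exponent_le hXr (by linarith)
  -- covering
  have hcover : ((Finset.Ioc X (2 * X)).filter (fun D => IsFund D ∧
      BadC a κ (γ + ε) X D)) ⊆ (Finset.range 16).biUnion (fun r => High r) := by
    intro D hD
    obtain ⟨hD1, hD2, hD3⟩ := Finset.mem_filter.1 hD
    obtain ⟨hDa, hDb⟩ := Finset.mem_Ioc.1 hD1
    rw [Finset.mem_biUnion]
    refine ⟨D % 16, Finset.mem_range.2 (Nat.mod_lt _ (by norm_num)), ?_⟩
    have hDD : D ∈ DD 2 (D % 16) X 1 := by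
      unfold DD
      rw [Finset.mem_filter, Finset.mem_Ioc, floor_two, Qz_two]
      exact ⟨⟨hDa, hDb⟩, rfl⟩
    by_contra hcon
    have hoff : off D S ≤ (X : ℝ) ^ (4 * η) * ((S.card : ℝ) ^ 2 / √(X : ℝ)) := by
      by_contra h
      exact hcon (Finset.mem_filter.2 ⟨hDD, not_le.1 h⟩)
    obtain ⟨K, i1, i2, g1, g2, P0, c, g3, g4, g6⟩ := hD3
    apply g6
    have hP0 : ∀ p ∈ P0, p.Prime ∧ p ≠ 2 := fun p hp =>
      ⟨(PL_mem (g3 hp)).1, (PL_mem (g3 hp)).2.1⟩
    have hD1' : 1 < D := hD2.1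
    have hDr : (1 : ℝ) < D := by exact_mod_cast hD1'
    have hDX' : (D : ℝ) ≤ 2 * X := by exact_mod_cast hDb
    have hlogD : Real.log D ≤ 1 + Real.log X := by
      have h1 : Real.log D ≤ Real.log (2 * X) := Real.log_le_log (by linarith) hDX'
      rw [Real.log_mul (by norm_num) hX0.ne'] at h1
      have := Real.log_two_lt_d9
      linarith
    have hL : Lone D ≤ (X : ℝ) ^ η := by
      refine (hLone D hD2).trans ?_
      have h2C : 2 * C ≤ (X : ℝ) ^ (η / 2) := (le_max_right _ _).trans hk1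
      have h1 : 1 + Real.log D ≤ 2 * (1 + Real.log X) := by linarith
      calc C * (1 + Real.log D) ≤ C * (2 * (1 + Real.log X)) := by gcongr
        _ = (2 * C) * (1 + Real.log X) := by ring
        _ ≤ (X : ℝ) ^ (η / 2) * (X : ℝ) ^ (η / 2) := by gcongr
        _ = _ := hhalf
    have hL0 : 0 ≤ Lone D := (hN3 K D hD2 g1 g2).1
    have hsD : √(D : ℝ) ≤ 2 * √(X : ℝ) := by
      rw [Real.sqrt_le_left (by positivity), mul_pow, Real.sq_sqrt hX0.le]
      linarith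
    have hsub : P0.powersetCard k ⊆ S := Finset.powersetCard_mono g3
    have hSD := SD_le D k S (P0.powersetCard k) hsub
      (fun s hs => ⟨(hSm s hs).1, (hSm s hs).2.1⟩)
    have hcS : ((P0.powersetCard k).card : ℝ) ≤ (X : ℝ) ^ F := by
      have : ((P0.powersetCard k).card : ℝ) ≤ S.card := by
        exact_mod_cast Finset.card_le_card hsub
      exact this.trans hScard
    have hT : off D S ≤ (X : ℝ) ^ (4 * η + 2 * F - 1 / 2) := by
      refine hoff.trans ?_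
      calc (X : ℝ) ^ (4 * η) * ((S.card : ℝ) ^ 2 / √(X : ℝ))
          ≤ (X : ℝ) ^ (4 * η) * (((X : ℝ) ^ F) ^ 2 / √(X : ℝ)) := by gcongr
        _ = _ := by
          rw [Real.sqrt_eq_rpow, ← Real.rpow_natCast ((X : ℝ) ^ F),
            ← Real.rpow_mul hX0.le, ← Real.rpow_sub hX0, ← Real.rpow_add hX0]
          congr 1
          push_cast
          ring
    have hSnn : 0 ≤ SD D (P0.powersetCard k) (fun _ => 1) := Pool.Agent.R345.IX.SD_nonneg D _
    -- the second moment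
    have hmom := moment hN0 hN1 hN3 h4 hKF h5b hN6 K D hD2 g1 g2 P0 hP0 c g4 k
    set Z := (Finset.univ : Finset (Chr K)).filter
      (fun χ => E0 a κ X ≤ ‖∑ p ∈ P0, lam c χ p‖) with hZ
    set W : ℝ := (E0 a κ X) ^ k / (2 ^ k * k.factorial) with hW
    have hfac : (0 : ℝ) < k.factorial := by exact_mod_cast Nat.factorial_pos k
    have hW0 : 0 < W := by positivity
    have hlow : ∀ χ ∈ Z, W ≤ ‖esC P0 (lam c χ) k‖ := by
      intro χ hχ
      refine esC_low P0 (lam c χ) (fun p hp => norm_lam hN2 K D hD2 g1 g2 p (hP0 p hp).1 c g4 χ) k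
        (E0 a κ X) q6 (Finset.mem_filter.1 hχ).2 q8 ?_
      refine le_trans ?_ q7
      have : (P0.card : ℝ) ≤ (PL a X).card := by exact_mod_cast Finset.card_le_card g3
      gcongr
    have h1 : (Z.card : ℝ) * W ^ 2 ≤ 2 * √(D : ℝ) * Lone D *
        SD D (P0.powersetCard k) (fun _ => 1) := by
      calc (Z.card : ℝ) * W ^ 2 = ∑ χ ∈ Z, W ^ 2 := by rw [Finset.sum_const, nsmul_eq_mul]
        _ ≤ ∑ χ ∈ Z, ‖esC P0 (lam c χ) k‖ ^ 2 :=
            Finset.sum_le_sum fun χ hχ => pow_le_pow_left₀ hW0.le (hlow χ hχ) 2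
        _ ≤ ∑ χ : Chr K, ‖esC P0 (lam c χ) k‖ ^ 2 :=
            Finset.sum_le_sum_of_subset_of_nonneg (Finset.filter_subset _ _)
              fun χ _ _ => sq_nonneg _
        _ ≤ _ := hmom
    set A : ℝ := ν * (1 - κ - 1 / a) - η with hA
    have hWA : (X : ℝ) ^ (A - η) ≤ W := by
      rw [hW, Real.rpow_sub hX0, div_le_div_iff₀ hXη (by positivity)]
      rw [le_div_iff₀ hfac] at q5
      calc (X : ℝ) ^ A * (2 ^ k * k.factorial) = ((X : ℝ) ^ A * k.factorial) * 2 ^ k := by ring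
        _ ≤ (E0 a κ X) ^ k * (X : ℝ) ^ η := by gcongr
    have hsXr : √(X : ℝ) = (X : ℝ) ^ (1 / 2 : ℝ) := Real.sqrt_eq_rpow _
    have h2 : (Z.card : ℝ) * ((X : ℝ) ^ (A - η)) ^ 2 ≤ 4 * ((X : ℝ) ^ (1 / 2 + 2 * η + F) +
        (X : ℝ) ^ (6 * η + 2 * F)) := by
      calc (Z.card : ℝ) * ((X : ℝ) ^ (A - η)) ^ 2 ≤ (Z.card : ℝ) * W ^ 2 := by gcongr
        _ ≤ _ := h1
        _ ≤ 2 * (2 * √(X : ℝ)) * (X : ℝ) ^ η * ((X : ℝ) ^ η * ((X : ℝ) ^ F +
            (X : ℝ) ^ (4 * η + 2 * F - 1 / 2))) := by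
            gcongr
            refine hSD.trans ?_
            have := off_nonneg D S fun s hs => (hSm s hs).1
            gcongr
        _ = 4 * (((X : ℝ) ^ (1 / 2 : ℝ) * (X : ℝ) ^ η * (X : ℝ) ^ η * (X : ℝ) ^ F) +
            ((X : ℝ) ^ (1 / 2 : ℝ) * (X : ℝ) ^ η * (X : ℝ) ^ η *
              (X : ℝ) ^ (4 * η + 2 * F - 1 / 2))) := by
            rw [hsXr]
            ring
        _ = _ := by
            rw [← Real.rpow_add hX0, ← Real.rpow_add hX0, ← Real.rpow_add hX0,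
              ← Real.rpow_add hX0]
            congr 3 <;> ring_nf
    have h3 : (Z.card : ℝ) ≤ 4 * ((X : ℝ) ^ (1 / 2 + 2 * η + F - 2 * (A - η)) +
        (X : ℝ) ^ (6 * η + 2 * F - 2 * (A - η))) := by
      have e1 : ((X : ℝ) ^ (A - η)) ^ 2 = (X : ℝ) ^ (2 * (A - η)) := by
        rw [← Real.rpow_natCast, ← Real.rpow_mul hX0.le]
        congr 1
        push_cast
        ring
      rw [e1] at h2
      have hpos : 0 < (X : ℝ) ^ (2 * (A - η)) := Real.rpow_pos_of_pos hX0 _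
      rw [Real.rpow_sub hX0, Real.rpow_sub hX0 (6 * η + 2 * F), ← add_div, mul_div_assoc',
        le_div_iff₀ hpos]
      exact h2
    have h8 : (8 : ℝ) ≤ (X : ℝ) ^ (η / 2) := by
      have : (3072 * 16 : ℝ) ≤ (X : ℝ) ^ (η / 2) := (le_max_left _ _).trans hk1
      linarith
    have t1 : (X : ℝ) ^ (1 / 2 + 2 * η + F - 2 * (A - η)) ≤ (X : ℝ) ^ (γ + 12 * η) := by
      apply Real.rpow_le_rpow_of_exponent_le hXr
      have : 1 / 2 + 2 * η + F - 2 * (A - η) =
        2 * (ν * κ) + (1 / 2 - ν * (1 - 1 / a)) + 7 * η := by rw [hF, hA]; ring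
      rw [this]
      linarith
    have t2 : (X : ℝ) ^ (6 * η + 2 * F - 2 * (A - η)) ≤ (X : ℝ) ^ (γ + 12 * η) := by
      apply Real.rpow_le_rpow_of_exponent_le hXr
      have : 6 * η + 2 * F - 2 * (A - η) = 2 * (ν * κ) + 12 * η := by rw [hF, hA]; ring
      rw [this]
      linarith
    calc (Z.card : ℝ) ≤ 4 * ((X : ℝ) ^ (γ + 12 * η) + (X : ℝ) ^ (γ + 12 * η)) := by linarith
      _ = 8 * (X : ℝ) ^ (γ + 12 * η) := by ring
      _ ≤ (X : ℝ) ^ (η / 2) * (X : ℝ) ^ (γ + 12 * η) := by gcongr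
      _ = (X : ℝ) ^ (η / 2 + (γ + 12 * η)) := by rw [← Real.rpow_add hX0]
      _ ≤ _ := Real.rpow_le_rpow_of_exponent_le hXr (by linarith)
  have hfin : ((((Finset.range 16).biUnion (fun r => High r)).card : ℕ) : ℝ) ≤
      (X : ℝ) ^ (1 - η) := by
    have h1 : (((Finset.range 16).biUnion (fun r => High r)).card : ℝ) ≤
        ∑ r ∈ Finset.range 16, ((High r).card : ℝ) := by
      exact_mod_cast Finset.card_biUnion_le
    refine h1.trans ?_
    have h2 : ∀ r ∈ Finset.range 16, ((High r).card : ℝ) ≤ (X : ℝ) ^ (1 - η) / 16 := by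
      intro r hr
      have hr' : r < Qz 2 := by rw [Qz_two]; exact Finset.mem_range.1 hr
      rw [le_div_iff₀ (by norm_num)]
      exact hHigh r hr'
    refine (Finset.sum_le_sum h2).trans ?_
    rw [Finset.sum_const, Finset.card_range, nsmul_eq_mul]
    push_cast
    linarith
  refine le_trans ?_ hfin
  exact_mod_cast Finset.card_le_card hcover

end Pool.Agent.H977.CS
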