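import Pool.Agent.H977.CS.Newton
import Pool.Agent.H977.LQ.Avg
import Pool.Agent.H38R2.CG3.NC
import Pool.Agent.H38R2.CG.LM

/-!
# The second moment over the characters of the class group
-/

set_option autoImplicit false

namespace Pool.Agent.H977.CS

open Finset Filter NumberField Pool.Agent.H38R2.CG Pool.Agent.H38R2.CG3
open scoped Classical ComplexConjugate

theorem parseval {G : Type*} [AddCommGroup G] [Fintype G] (N : G → ℂ) :
    ∑ χ : AddChar G ℂ, ‖∑ g, N g * χ g‖ ^ 2 = Fintype.card G * ∑ g, ‖N g‖ ^ 2 := by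
  have key : (∑ χ : AddChar G ℂ, ((‖∑ g, N g * χ g‖ ^ 2 : ℝ) : ℂ)) =
      (Fintype.card G : ℂ) * ∑ g, ((‖N g‖ ^ 2 : ℝ) : ℂ) := by
    have e1 : ∀ χ : AddChar G ℂ, ((‖∑ g, N g * χ g‖ ^ 2 : ℝ) : ℂ) =
        ∑ g, ∑ h, N g * conj (N h) * χ (g - h) := by
      intro χ
      have h1 : ((‖∑ g, N g * χ g‖ ^ 2 : ℝ) : ℂ) = (∑ g, N g * χ g) * conj (∑ g, N g * χ g) := by
        rw [Complex.mul_conj, Complex.normSq_eq_norm_sq]
      rw [h1, map_sum, Finset.sum_mul_sum]
      refine Finset.sum_congr rfl fun g _ => Finset.sum_congr rfl fun h _ => ?_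
      rw [map_mul, ← AddChar.map_neg_eq_conj, sub_eq_add_neg, AddChar.map_add_eq_mul]
      ring
    rw [Finset.sum_congr rfl fun χ _ => e1 χ, Finset.sum_comm]
    rw [Finset.mul_sum]
    refine Finset.sum_congr rfl fun g _ => ?_
    rw [Finset.sum_comm]
    have h2 : ∀ h : G, ∑ χ : AddChar G ℂ, N g * conj (N h) * χ (g - h) =
        if h = g then (Fintype.card G : ℂ) * (N g * conj (N g)) else 0 := by
      intro h
      rw [← Finset.mul_sum, AddChar.sum_apply_eq_ite]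
      by_cases hgh : h = g
      · subst hgh
        rw [if_pos (sub_self _), if_pos rfl]
        ring
      · rw [if_neg (fun h' => hgh (sub_eq_zero.1 h').symm), if_neg hgh, mul_zero]
    rw [Finset.sum_congr rfl fun h _ => h2 h, Finset.sum_ite_eq', if_pos (Finset.mem_univ _),
      Complex.mul_conj, Complex.normSq_eq_norm_sq]
  exact_mod_cast key

theorem chi_prod {G ι : Type*} [CommGroup G] (χ : AddChar (Additive G) ℂ) (s : Finset ι)
    (f : ι → G) : χ (Additive.ofMul (∏ i ∈ s, f i)) = ∏ i ∈ s, χ (Additive.ofMul (f i)) := by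
  induction s using Finset.induction_on with
  | empty => simp
  | insert i s hi ih =>
    rw [Finset.prod_insert hi, Finset.prod_insert hi, ofMul_mul, AddChar.map_add_eq_mul, ih]

/-- the class of the ideal attached to a choice -/
theorem mk0_prod {K ι : Type} [Field K] [NumberField K] (s : Finset ι)
    (f : ι → nonZeroDivisors (Ideal (𝓞 K))) :
    ClassGroup.mk0 (∏ i ∈ s, f i) = ∏ i ∈ s, ClassGroup.mk0 (f i) := map_prod _ _ _

theorem finite_pr (K : Type) [Field K] [NumberField K] (p : ℕ) :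
    {I : nonZeroDivisors (Ideal (𝓞 K)) | Ideal.absNorm (I : Ideal (𝓞 K)) = p}.Finite :=
  (Ideal.finite_setOfPred_absNorm_le₀ (S := 𝓞 K) p).subset fun _ hI => le_of_eq hI

/-- the ideals of norm `p` -/
noncomputable def pr (K : Type) [Field K] [NumberField K] (p : ℕ) :
    Finset (nonZeroDivisors (Ideal (𝓞 K))) := (finite_pr K p).toFinset

theorem mem_pr {K : Type} [Field K] [NumberField K] {p : ℕ} {I : nonZeroDivisors (Ideal (𝓞 K))} :
    I ∈ pr K p ↔ Ideal.absNorm (I : Ideal (𝓞 K)) = p := by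
  unfold pr
  rw [Set.Finite.mem_toFinset]
  rfl

theorem pr_card_le (hN2 : P_N2) (K : Type) [Field K] [NumberField K] (D : ℕ)
    (hD : IsFund D) (h2 : Module.finrank ℚ K = 2) (hK : NumberField.discr K = (D : ℤ)) (p : ℕ)
    (hp : p.Prime) : (pr K p).card ≤ 2 := by
  have h1 : (pr K p).card ≤ (NFh.U K p).card := by
    refine Finset.card_le_card_of_injOn (fun I => (I : Ideal (𝓞 K))) ?_ ?_
    · intro I hI
      rw [Finset.mem_coe] at hI ⊢
      exact NFh.mem_U.2 (mem_pr.1 hI)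
    · intro I _ J _ h
      exact Subtype.ext h
  have h3 := hN2 K D hD h2 hK p hp.one_lt.le
  rw [← NFh.card_U, Nat.Prime.sum_divisors hp] at h3
  have h4 : chi D p ≤ 1 := (abs_le.1 (LMh.chi_abs_le D p)).2
  have h5 : chi D 1 ≤ 1 := (abs_le.1 (LMh.chi_abs_le D 1)).2
  have h6 : ((NFh.U K p).card : ℤ) ≤ 2 := by
    rw [h3]
    linarith
  have h7 : (NFh.U K p).card ≤ 2 := by exact_mod_cast h6
  exact h1.trans h7

/-- the sum over the ideals of norm `p` -/
noncomputable def lam {K : Type} [Field K] [NumberField K]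
    (c : nonZeroDivisors (Ideal (𝓞 K)) → ℂ) (χ : AddChar (Additive (ClassGroup (𝓞 K))) ℂ)
    (p : ℕ) : ℂ := ∑ I ∈ pr K p, c I * χ (Additive.ofMul (ClassGroup.mk0 I))

theorem norm_lam (hN2 : P_N2) (K : Type) [Field K] [NumberField K] (D : ℕ)
    (hD : IsFund D) (h2 : Module.finrank ℚ K = 2) (hK : NumberField.discr K = (D : ℤ)) (p : ℕ)
    (hp : p.Prime) (c : nonZeroDivisors (Ideal (𝓞 K)) → ℂ) (hc : ∀ I, ‖c I‖ ≤ 1)
    (χ : AddChar (Additive (ClassGroup (𝓞 K))) ℂ) : ‖lam c χ p‖ ≤ 2 := by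
  unfold lam
  refine (norm_sum_le _ _).trans ?_
  calc ∑ I ∈ pr K p, ‖c I * χ (Additive.ofMul (ClassGroup.mk0 I))‖ ≤ ∑ I ∈ pr K p, (1 : ℝ) := by
        refine Finset.sum_le_sum fun I _ => ?_
        rw [norm_mul, AddChar.norm_apply, mul_one]
        exact hc I
    _ = (pr K p).card := by rw [Finset.sum_const, nsmul_eq_mul, mul_one]
    _ ≤ 2 := by exact_mod_cast pr_card_le hN2 K D hD h2 hK p hp

/-- the ideal attached to a choice of prime ideals -/
noncomputable def Idl {K : Type} [Field K] [NumberField K] (s : Finset ℕ)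
    (f : (p : ℕ) → p ∈ s → nonZeroDivisors (Ideal (𝓞 K))) : nonZeroDivisors (Ideal (𝓞 K)) :=
  ∏ p ∈ s.attach, f p.1 p.2

theorem Idl_norm {K : Type} [Field K] [NumberField K] (s : Finset ℕ)
    (f : (p : ℕ) → p ∈ s → nonZeroDivisors (Ideal (𝓞 K))) (hf : f ∈ s.pi (pr K)) :
    Ideal.absNorm (Idl s f : Ideal (𝓞 K)) = prodS s := by
  unfold Idl prodS
  rw [Submonoid.coe_finsetProd, map_prod, ← Finset.prod_attach s]
  refine Finset.prod_congr rfl fun p _ => ?_
  exact mem_pr.1 (Finset.mem_pi.1 hf p.1 p.2)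

theorem Idl_inj {K : Type} [Field K] [NumberField K] (s : Finset ℕ) (hs : ∀ p ∈ s, p.Prime)
    (f g : (p : ℕ) → p ∈ s → nonZeroDivisors (Ideal (𝓞 K))) (hf : f ∈ s.pi (pr K))
    (hg : g ∈ s.pi (pr K)) (h : Idl s f = Idl s g) : f = g := by
  funext p hp
  have hfp : Ideal.absNorm (f p hp : Ideal (𝓞 K)) = p := mem_pr.1 (Finset.mem_pi.1 hf p hp)
  have hne : (f p hp : Ideal (𝓞 K)) ≠ ⊥ := nonZeroDivisors.coe_ne_zero (f p hp)
  have hpr : (f p hp : Ideal (𝓞 K)).IsPrime := by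
    apply Ideal.isPrime_of_irreducible_absNorm
    rw [hfp]
    exact hs p hp
  have hprime : Prime (f p hp : Ideal (𝓞 K)) := Ideal.prime_of_isPrime hne hpr
  have hdvd : (f p hp : Ideal (𝓞 K)) ∣ ∏ q ∈ s.attach, (g q.1 q.2 : Ideal (𝓞 K)) := by
    have h1 : (Idl s g : Ideal (𝓞 K)) = ∏ q ∈ s.attach, (g q.1 q.2 : Ideal (𝓞 K)) := by
      unfold Idl
      rw [Submonoid.coe_finsetProd]
    have h2 : (Idl s f : Ideal (𝓞 K)) = ∏ q ∈ s.attach, (f q.1 q.2 : Ideal (𝓞 K)) := by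
      unfold Idl
      rw [Submonoid.coe_finsetProd]
    rw [← h1, ← h, h2]
    rw [← Finset.mul_prod_erase s.attach (fun q : {x // x ∈ s} => (f q.1 q.2 : Ideal (𝓞 K)))
      (Finset.mem_attach s ⟨p, hp⟩)]
    exact dvd_mul_right _ _
  obtain ⟨q, _, hq⟩ := (hprime.dvd_finsetProd_iff _).1 hdvd
  have hgq : Ideal.absNorm (g q.1 q.2 : Ideal (𝓞 K)) = q.1 :=
    mem_pr.1 (Finset.mem_pi.1 hg q.1 q.2)
  obtain ⟨J, hJ⟩ := hq
  have hn : q.1 = p * Ideal.absNorm J := by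
    rw [← hgq, hJ, map_mul, hfp]
  have hpq : p = q.1 :=
    (Nat.prime_dvd_prime_iff_eq (hs p hp) (hs q.1 q.2)).1 ⟨_, hn⟩
  have hJ1 : Ideal.absNorm J = 1 := by
    have h3 : p * 1 = p * Ideal.absNorm J := by rw [mul_one, ← hn, ← hpq]
    exact (Nat.eq_of_mul_eq_mul_left (hs p hp).pos h3).symm
  rw [Ideal.absNorm_eq_one_iff] at hJ1
  rw [hJ1, Ideal.mul_top] at hJ
  apply Subtype.ext
  rw [← hJ]
  obtain ⟨q, hq⟩ := q
  subst hpq
  rfl

/-- the second moment -/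
theorem moment (hN0 : P_N0) (hN1 : P_N1) (hN3 : P_N3) (h4 : P_N4) (hKF : P_KF)
    (h5b : P_N5b) (hN6 : P_N6) (K : Type) [Field K] [NumberField K] (D : ℕ)
    (hD : IsFund D) (h2 : Module.finrank ℚ K = 2) (hK : NumberField.discr K = (D : ℤ))
    (P0 : Finset ℕ) (hP : ∀ p ∈ P0, p.Prime ∧ p ≠ 2) (c : nonZeroDivisors (Ideal (𝓞 K)) → ℂ)
    (hc : ∀ I, ‖c I‖ ≤ 1) (k : ℕ) :
    ∑ χ : AddChar (Additive (ClassGroup (𝓞 K))) ℂ, ‖esC P0 (lam c χ) k‖ ^ 2 ≤
      2 * √(D : ℝ) * Lone D * SD D (P0.powersetCard k) (fun _ => 1) := by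
  set S := P0.powersetCard k with hS
  have hSp : ∀ s ∈ S, ∀ p ∈ s, p.Prime ∧ p ≠ 2 := fun s hs p hp =>
    hP p ((mem_powersetCard.1 hs).1 hp)
  have hf : ∀ s ∈ S, (0 : ℝ) ≤ (fun _ : Finset ℕ => (1 : ℝ)) s ∧ ∀ p ∈ s, p.Prime ∧ p ≠ 2 :=
    fun s hs => ⟨zero_le_one, hSp s hs⟩
  obtain ⟨hA, -⟩ := nf_classes hN0 hN1 hN3 h4 hKF h5b hN6 K D hD h2 hK S (fun _ => 1) hf
  refine le_trans ?_ hA
  set w : (s : Finset ℕ) → ((p : ℕ) → p ∈ s → nonZeroDivisors (Ideal (𝓞 K))) → ℂ :=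
    fun s f => ∏ p ∈ s.attach, c (f p.1 p.2) with hw
  set N : Additive (ClassGroup (𝓞 K)) → ℂ := fun C => ∑ s ∈ S, ∑ f ∈ s.pi (pr K),
    if Additive.ofMul (ClassGroup.mk0 (Idl s f)) = C then w s f else 0 with hN
  have e1 : ∀ χ : AddChar (Additive (ClassGroup (𝓞 K))) ℂ,
      esC P0 (lam c χ) k = ∑ C, N C * χ C := by
    intro χ
    unfold esC lam
    rw [← hS]
    have e2 : ∀ s ∈ S, ∏ p ∈ s, ∑ I ∈ pr K p, c I * χ (Additive.ofMul (ClassGroup.mk0 I)) =
        ∑ f ∈ s.pi (pr K), w s f * χ (Additive.ofMul (ClassGroup.mk0 (Idl s f))) := by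
      intro s _
      rw [Finset.prod_sum]
      refine Finset.sum_congr rfl fun f _ => ?_
      rw [Finset.prod_mul_distrib]
      congr 1
      unfold Idl
      rw [mk0_prod, chi_prod]
    rw [Finset.sum_congr rfl e2]
    rw [hN]
    simp only [Finset.sum_mul]
    rw [Finset.sum_comm]
    refine Finset.sum_congr rfl fun s _ => ?_
    rw [Finset.sum_comm]
    refine Finset.sum_congr rfl fun f _ => ?_
    simp only [ite_mul, zero_mul]
    rw [Finset.sum_ite_eq, if_pos (Finset.mem_univ _)]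
  rw [Finset.sum_congr rfl fun χ _ => by rw [e1 χ], parseval N]
  have hcard : (Fintype.card (Additive (ClassGroup (𝓞 K))) : ℝ) =
      Nat.card (ClassGroup (𝓞 K)) := by
    rw [← Nat.card_eq_fintype_card]
    exact congrArg _ (Nat.card_congr Additive.toMul)
  rw [hcard]
  refine mul_le_mul_of_nonneg_left ?_ (Nat.cast_nonneg _)
  have e3 : ∑ g : Additive (ClassGroup (𝓞 K)), ‖N g‖ ^ 2 =
      ∑ C : ClassGroup (𝓞 K), ‖N (Additive.ofMul C)‖ ^ 2 :=
    Fintype.sum_equiv Additive.toMul _ _ fun _ => rfl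
  rw [e3]
  refine Finset.sum_le_sum fun C _ => pow_le_pow_left₀ (norm_nonneg _) ?_ 2
  rw [hN]
  simp only
  refine (norm_sum_le _ _).trans ?_
  unfold MC
  refine Finset.sum_le_sum fun s hs => ?_
  rw [one_mul]
  refine (norm_sum_le _ _).trans ?_
  have h5 : ∀ f ∈ s.pi (pr K), ‖(if Additive.ofMul (ClassGroup.mk0 (Idl s f)) =
      Additive.ofMul C then w s f else 0)‖ ≤
      if ClassGroup.mk0 (Idl s f) = C then (1 : ℝ) else 0 := by
    intro f _
    by_cases h : ClassGroup.mk0 (Idl s f) = C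
    · rw [if_pos (by rw [h]), if_pos h, hw]
      simp only
      rw [norm_prod]
      exact Finset.prod_le_one (fun _ _ => norm_nonneg _) fun p _ => hc _
    · rw [if_neg (fun h' => h (Additive.ofMul.injective h')), if_neg h, norm_zero]
  refine (Finset.sum_le_sum h5).trans ?_
  rw [← Finset.sum_filter, Finset.sum_const, nsmul_eq_mul, mul_one]
  have h6 : Nat.card {I : nonZeroDivisors (Ideal (𝓞 K)) //
      Ideal.absNorm (I : Ideal (𝓞 K)) = prodS s ∧ ClassGroup.mk0 I = C} =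
      ((pr K (prodS s)).filter (fun I => ClassGroup.mk0 I = C)).card := by
    refine Nat.subtype_card _ fun I => ?_
    rw [Finset.mem_filter, mem_pr]
  rw [h6]
  have h7 : ((s.pi (pr K)).filter (fun f => ClassGroup.mk0 (Idl s f) = C)).card ≤
      ((pr K (prodS s)).filter (fun I => ClassGroup.mk0 I = C)).card := by
    refine Finset.card_le_card_of_injOn (fun f => Idl s f) ?_ ?_
    · intro f hf'
      rw [Finset.mem_coe, Finset.mem_filter] at hf' ⊢
      exact ⟨mem_pr.2 (Idl_norm s f hf'.1), hf'.2⟩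
    · intro f hf' g hg' h
      rw [Finset.mem_coe, Finset.mem_filter] at hf' hg'
      exact Idl_inj s (fun p hp => (hSp s hs p hp).1) f g hf'.1 hg'.1 h
  exact_mod_cast h7

end Pool.Agent.H977.CS
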