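import Mathlib

/-!
# A lower bound for elementary symmetric sums of complex numbers
-/

set_option autoImplicit false

namespace Pool.Agent.H977.CS

open Finset
open scoped Classical

/-- the elementary symmetric sum -/
noncomputable def esC {ι : Type*} (P : Finset ι) (z : ι → ℂ) (k : ℕ) : ℂ :=
  ∑ s ∈ P.powersetCard k, ∏ p ∈ s, z p

/-- the induction for the sequence of the elementary symmetric sums -/
theorem seq_low (a : ℕ → ℝ) (ha : ∀ j, 0 ≤ a j) (k : ℕ) (E N : ℝ) (hN : 0 ≤ N) (hE : 0 < E)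
    (hk : 8 * (k : ℝ) ≤ E) (hkN : 32 * k * N ≤ E ^ 2)
    (hrec : ∀ j, 1 ≤ j → j ≤ k → E * a (j - 1) -
      ∑ i ∈ Finset.range (j - 1), a i * (2 ^ (j - i) * N) ≤ j * a j) :
    ∀ j, 1 ≤ j → j ≤ k → E * a (j - 1) ≤ 2 * j * a j := by
  intro j
  induction j using Nat.strong_induction_on with
  | _ j ih =>
    intro hj1 hjk
    have hk0 : (0 : ℝ) < k := by
      have : 0 < k := by omega
      exact_mod_cast this
    set x : ℝ := 2 * k / E with hx
    have hx0 : 0 < x := by positivity
    have hx1 : x ≤ 1 / 4 := by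
      rw [hx, div_le_iff₀ hE]
      linarith
    -- comparison with the last term
    have hcmp : ∀ m, m ≤ j - 1 → a (j - 1 - m) ≤ x ^ m * a (j - 1) := by
      intro m
      induction m with
      | zero => intro _; simp
      | succ m ihm =>
        intro hm
        have h1 := ihm (by omega)
        have h2 := ih (j - 1 - m) (by omega) (by omega) (by omega)
        have e1 : j - 1 - m - 1 = j - 1 - (m + 1) := by omega
        rw [e1] at h2
        have h3 : ((j - 1 - m : ℕ) : ℝ) ≤ k := by exact_mod_cast (by omega : j - 1 - m ≤ k)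
        have h4 : E * a (j - 1 - (m + 1)) ≤ 2 * k * a (j - 1 - m) :=
          h2.trans (by have := ha (j - 1 - m); gcongr)
        have h5 : a (j - 1 - (m + 1)) ≤ x * a (j - 1 - m) := by
          rw [hx, div_mul_eq_mul_div, le_div_iff₀ hE]
          linarith
        calc a (j - 1 - (m + 1)) ≤ x * a (j - 1 - m) := h5
          _ ≤ x * (x ^ m * a (j - 1)) := by gcongr
          _ = x ^ (m + 1) * a (j - 1) := by ring
    have hrec' := hrec j hj1 hjk
    have hsum : ∑ i ∈ Finset.range (j - 1), a i * (2 ^ (j - i) * N) ≤ E / 2 * a (j - 1) := by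
      have e1 : ∑ i ∈ Finset.range (j - 1), a i * (2 ^ (j - i) * N) =
          ∑ m ∈ Finset.range (j - 1), a (j - 1 - (m + 1)) * (2 ^ (m + 2) * N) := by
        rw [← Finset.sum_range_reflect]
        refine Finset.sum_congr rfl fun m hm => ?_
        have hm' := Finset.mem_range.1 hm
        have e2 : j - 1 - 1 - m = j - 1 - (m + 1) := by omega
        have e3 : j - (j - 1 - 1 - m) = m + 2 := by omega
        rw [e3, e2]
      rw [e1]
      have h1 : ∀ m ∈ Finset.range (j - 1), a (j - 1 - (m + 1)) * (2 ^ (m + 2) * N) ≤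
          (4 * x * N * a (j - 1)) * (1 / 2) ^ m := by
        intro m hm
        have hm' := Finset.mem_range.1 hm
        have h2 := hcmp (m + 1) (by omega)
        have h3 : (2 * x) ^ m ≤ (1 / 2) ^ m := pow_le_pow_left₀ (by positivity) (by linarith) m
        have haj := ha (j - 1)
        calc a (j - 1 - (m + 1)) * (2 ^ (m + 2) * N) ≤
              (x ^ (m + 1) * a (j - 1)) * (2 ^ (m + 2) * N) := by gcongr
          _ = (4 * x * N * a (j - 1)) * (2 * x) ^ m := by
              rw [mul_pow]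
              ring
          _ ≤ _ := by gcongr
      refine (Finset.sum_le_sum h1).trans ?_
      rw [← Finset.mul_sum]
      have h2 : ∑ m ∈ Finset.range (j - 1), ((1 : ℝ) / 2) ^ m ≤ 2 := by
        have h3 := Summable.sum_le_tsum (Finset.range (j - 1))
          (fun m _ => by positivity) (summable_geometric_two)
        rwa [tsum_geometric_two] at h3
      have haj := ha (j - 1)
      have h4 : 4 * x * N * 2 ≤ E / 2 := by
        rw [hx]
        have : 4 * (2 * k / E) * N * 2 = (32 * k * N) / (2 * E) := by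
          field_simp
          ring
        rw [this, div_le_iff₀ (by positivity)]
        nlinarith
      calc (4 * x * N * a (j - 1)) * ∑ m ∈ Finset.range (j - 1), ((1 : ℝ) / 2) ^ m ≤
            (4 * x * N * a (j - 1)) * 2 := by gcongr
        _ = (4 * x * N * 2) * a (j - 1) := by ring
        _ ≤ E / 2 * a (j - 1) := by gcongr
    have haj := ha j
    linarith

theorem esC_zero {ι : Type*} (P : Finset ι) (z : ι → ℂ) : esC P z 0 = 1 := by
  unfold esC
  rw [Finset.powersetCard_zero, Finset.sum_singleton, Finset.prod_empty]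

/-- Newton's identity -/
theorem newton {ι : Type*} (P : Finset ι) (z : ι → ℂ) (k : ℕ) :
    (k : ℂ) * esC P z k = (-1) ^ (k + 1) *
      ∑ a ∈ (antidiagonal k).filter (fun a => a.1 < k), (-1) ^ a.1 * esC P z a.1 *
        ∑ p ∈ P, z p ^ a.2 := by
  have h1 := congrArg (MvPolynomial.aeval (fun i : {x // x ∈ P} => z i))
    (MvPolynomial.mul_esymm_eq_sum {x // x ∈ P} ℂ k)
  have e1 : ∀ j : ℕ, MvPolynomial.aeval (fun i : {x // x ∈ P} => z i)
      (MvPolynomial.esymm {x // x ∈ P} ℂ j) = esC P z j := by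
    intro j
    unfold MvPolynomial.esymm esC
    rw [map_sum]
    simp only [map_prod, MvPolynomial.aeval_X]
    refine Finset.sum_bij (fun s _ => s.map (Function.Embedding.subtype _)) ?_ ?_ ?_ ?_
    · intro s hs
      rw [Finset.mem_powersetCard] at hs ⊢
      refine ⟨?_, by rw [Finset.card_map]; exact hs.2⟩
      intro x hx
      obtain ⟨y, _, rfl⟩ := Finset.mem_map.1 hx
      exact y.2
    · intro s _ t _ h
      exact Finset.map_injective _ h
    · intro s hs
      rw [Finset.mem_powersetCard] at hs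
      refine ⟨s.subtype (fun x => x ∈ P), ?_, ?_⟩
      · rw [Finset.mem_powersetCard]
        refine ⟨Finset.subset_univ _, ?_⟩
        rw [Finset.card_subtype, Finset.filter_true_of_mem (fun x hx => hs.1 hx)]
        exact hs.2
      · rw [Finset.subtype_map, Finset.filter_true_of_mem (fun x hx => hs.1 hx)]
    · intro s _
      rw [Finset.prod_map]
      rfl
  have e2 : ∀ j : ℕ, MvPolynomial.aeval (fun i : {x // x ∈ P} => z i)
      (MvPolynomial.psum {x // x ∈ P} ℂ j) = ∑ p ∈ P, z p ^ j := by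
    intro j
    unfold MvPolynomial.psum
    rw [map_sum]
    simp only [map_pow, MvPolynomial.aeval_X]
    exact Finset.sum_coe_sort P (fun x => z x ^ j)
  rw [map_mul, map_natCast, e1, map_mul, map_pow, map_neg, map_one, map_sum] at h1
  rw [h1]
  congr 1
  refine Finset.sum_congr rfl fun a _ => ?_
  rw [map_mul, map_mul, map_pow, map_neg, map_one, e1, e2]

/-- the recursion for the absolute values -/
theorem esC_rec {ι : Type*} (P : Finset ι) (z : ι → ℂ) (hz : ∀ p ∈ P, ‖z p‖ ≤ 2) (j : ℕ)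
    (hj : 1 ≤ j) :
    ‖∑ p ∈ P, z p‖ * ‖esC P z (j - 1)‖ -
      ∑ i ∈ Finset.range (j - 1), ‖esC P z i‖ * (2 ^ (j - i) * P.card) ≤ j * ‖esC P z j‖ := by
  have h1 := newton P z j
  have e0 : (antidiagonal j).filter (fun a => a.1 < j) =
      (Finset.range j).image (fun i => (i, j - i)) := by
    ext ⟨x, y⟩
    rw [Finset.mem_filter, Finset.HasAntidiagonal.mem_antidiagonal, Finset.mem_image]
    constructor
    · rintro ⟨h1, h2⟩
      refine ⟨x, Finset.mem_range.2 h2, ?_⟩
      simp only [Prod.mk.injEq, true_and]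
      simp only at h1
      omega
    · rintro ⟨i, hi, h⟩
      simp only [Prod.mk.injEq] at h
      have := Finset.mem_range.1 hi
      simp only
      omega
  rw [e0, Finset.sum_image (fun x _ y _ h => (Prod.mk.injEq _ _ _ _ ▸ h).1)] at h1
  have h2 : ‖(j : ℂ) * esC P z j‖ = ‖∑ i ∈ Finset.range j, (-1) ^ i * esC P z i *
      ∑ p ∈ P, z p ^ (j - i)‖ := by
    rw [h1, norm_mul, norm_pow, norm_neg, norm_one, one_pow, one_mul]
  rw [norm_mul, Complex.norm_natCast] at h2
  rw [h2]
  obtain ⟨m, rfl⟩ : ∃ m, j = m + 1 := ⟨j - 1, by omega⟩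
  rw [Finset.sum_range_succ, Nat.add_sub_cancel]
  have e1 : m + 1 - m = 1 := by omega
  rw [e1]
  simp only [pow_one]
  have h3 : ‖∑ i ∈ Finset.range m, (-1) ^ i * esC P z i * ∑ p ∈ P, z p ^ (m + 1 - i)‖ ≤
      ∑ i ∈ Finset.range m, ‖esC P z i‖ * (2 ^ (m + 1 - i) * P.card) := by
    refine (norm_sum_le _ _).trans (Finset.sum_le_sum fun i _ => ?_)
    rw [norm_mul, norm_mul, norm_pow, norm_neg, norm_one, one_pow, one_mul]
    refine mul_le_mul_of_nonneg_left ?_ (norm_nonneg _)
    refine (norm_sum_le _ _).trans ?_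
    calc ∑ p ∈ P, ‖z p ^ (m + 1 - i)‖ ≤ ∑ p ∈ P, (2 : ℝ) ^ (m + 1 - i) := by
          refine Finset.sum_le_sum fun p hp => ?_
          rw [norm_pow]
          exact pow_le_pow_left₀ (norm_nonneg _) (hz p hp) _
      _ = 2 ^ (m + 1 - i) * P.card := by rw [Finset.sum_const, nsmul_eq_mul, mul_comm]
  have h4 : ‖(-1) ^ m * esC P z m * ∑ p ∈ P, z p‖ = ‖∑ p ∈ P, z p‖ * ‖esC P z m‖ := by
    rw [norm_mul, norm_mul, norm_pow, norm_neg, norm_one, one_pow, one_mul, mul_comm]
  have h5 : ∀ A B : ℂ, ‖A‖ - ‖B‖ ≤ ‖B + A‖ := fun A B => by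
    rw [add_comm B A]
    exact norm_sub_le_norm_add A B
  have h6 := h5 ((-1) ^ m * esC P z m * ∑ p ∈ P, z p)
    (∑ i ∈ Finset.range m, (-1) ^ i * esC P z i * ∑ p ∈ P, z p ^ (m + 1 - i))
  linarith

/-- the lower bound -/
theorem esC_low {ι : Type*} (P : Finset ι) (z : ι → ℂ) (hz : ∀ p ∈ P, ‖z p‖ ≤ 2) (k : ℕ) (E : ℝ)
    (hE0 : 0 < E) (hE : E ≤ ‖∑ p ∈ P, z p‖) (hk : 8 * (k : ℝ) ≤ E)
    (hkN : 32 * k * (P.card : ℝ) ≤ E ^ 2) :
    E ^ k / (2 ^ k * k.factorial) ≤ ‖esC P z k‖ := by
  have key := seq_low (fun j => ‖esC P z j‖) (fun j => norm_nonneg _) k E P.card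
    (Nat.cast_nonneg _) hE0 hk hkN (fun j hj1 _ => by
      have h1 := esC_rec P z hz j hj1
      have h2 : E * ‖esC P z (j - 1)‖ ≤ ‖∑ p ∈ P, z p‖ * ‖esC P z (j - 1)‖ :=
        mul_le_mul_of_nonneg_right hE (norm_nonneg _)
      linarith)
  have h3 : ∀ j, j ≤ k → E ^ j / (2 ^ j * j.factorial) ≤ ‖esC P z j‖ := by
    intro j
    induction j with
    | zero =>
      intro _
      rw [esC_zero]
      simp
    | succ j ih =>
      intro hj
      have h4 := ih (by omega)
      have h5 : E * ‖esC P z j‖ ≤ 2 * ((j + 1 : ℕ) : ℝ) * ‖esC P z (j + 1)‖ := by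
        have := key (j + 1) (by omega) hj
        simpa using this
      have h6 : (0 : ℝ) < j.factorial := by exact_mod_cast Nat.factorial_pos j
      rw [Nat.factorial_succ, div_le_iff₀ (by positivity)]
      rw [div_le_iff₀ (by positivity)] at h4
      calc E ^ (j + 1) = E * E ^ j := by ring
        _ ≤ E * (‖esC P z j‖ * (2 ^ j * j.factorial)) := by gcongr
        _ = (E * ‖esC P z j‖) * (2 ^ j * j.factorial) := by ring
        _ ≤ (2 * ((j + 1 : ℕ) : ℝ) * ‖esC P z (j + 1)‖) * (2 ^ j * j.factorial) := by gcongr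
        _ = _ := by push_cast; ring
  exact h3 k le_rfl

end Pool.Agent.H977.CS
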