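import Pool.Agent.H977.CS.CEnd

/-!
# Products of tiny prime ideals: counts in the ideal classes
-/

set_option autoImplicit false

namespace Pool.Agent.H977.CS

open Finset Filter NumberField Pool.Agent.H38R2.CG Pool.Agent.H38R2.CG2
open scoped Classical ComplexConjugate

/-- the tuples from `Q` with product in `C` -/
noncomputable def tup (K : Type) [Field K] [NumberField K]
    (Q : Finset (nonZeroDivisors (Ideal (𝓞 K)))) (k : ℕ) (C : ClassGroup (𝓞 K)) :
    Finset (Fin k → nonZeroDivisors (Ideal (𝓞 K))) :=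
  (Fintype.piFinset (fun _ => Q)).filter (fun v => ∏ i, ClassGroup.mk0 (v i) = C)

/-- the pairs of tuples from `Q` with the same product in the class group -/
noncomputable def coll (K : Type) [Field K] [NumberField K]
    (Q : Finset (nonZeroDivisors (Ideal (𝓞 K)))) (k : ℕ) :
    Finset ((Fin k → nonZeroDivisors (Ideal (𝓞 K))) × (Fin k → nonZeroDivisors (Ideal (𝓞 K)))) :=
  ((Fintype.piFinset (fun _ => Q)) ×ˢ (Fintype.piFinset (fun _ => Q))).filter
    (fun x => ∏ i, ClassGroup.mk0 (x.1 i) = ∏ i, ClassGroup.mk0 (x.2 i))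

/-- the character sum over `Q` -/
noncomputable def SQ {K : Type} [Field K] [NumberField K]
    (Q : Finset (nonZeroDivisors (Ideal (𝓞 K)))) (χ : Chr K) : ℂ :=
  ∑ P ∈ Q, χ (Additive.ofMul (ClassGroup.mk0 P))

theorem SQ_pow {K : Type} [Field K] [NumberField K]
    (Q : Finset (nonZeroDivisors (Ideal (𝓞 K)))) (χ : Chr K) (k : ℕ) :
    SQ Q χ ^ k = ∑ v ∈ Fintype.piFinset (fun _ : Fin k => Q),
      χ (Additive.ofMul (∏ i, ClassGroup.mk0 (v i))) := by
  have h := Finset.prod_univ_sum (fun _ : Fin k => Q)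
    (fun _ P => χ (Additive.ofMul (ClassGroup.mk0 P)))
  rw [Finset.prod_const, Finset.card_univ, Fintype.card_fin] at h
  unfold SQ
  rw [h]
  refine Finset.sum_congr rfl fun v _ => ?_
  rw [chi_prod]

theorem card_add (K : Type) [Field K] [NumberField K] :
    (Fintype.card (Additive (ClassGroup (𝓞 K))) : ℂ) = Nat.card (ClassGroup (𝓞 K)) := by
  rw [← Nat.card_eq_fintype_card]
  rfl

theorem card_chr (K : Type) [Field K] [NumberField K] :
    Fintype.card (Chr K) = Nat.card (ClassGroup (𝓞 K)) := by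
  have : Fintype.card (Chr K) = Fintype.card (Additive (ClassGroup (𝓞 K))) := AddChar.card_eq
  rw [this, ← Nat.card_eq_fintype_card]
  rfl

/-- Fourier inversion for the number of tuples -/
theorem tup_card {K : Type} [Field K] [NumberField K]
    (Q : Finset (nonZeroDivisors (Ideal (𝓞 K)))) (k : ℕ) (C : ClassGroup (𝓞 K)) :
    (Nat.card (ClassGroup (𝓞 K)) : ℂ) * (tup K Q k C).card =
      ∑ χ : Chr K, χ (Additive.ofMul C⁻¹) * SQ Q χ ^ k := by
  have h1 : ∀ χ : Chr K, χ (Additive.ofMul C⁻¹) * SQ Q χ ^ k =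
      ∑ v ∈ Fintype.piFinset (fun _ : Fin k => Q),
        χ (Additive.ofMul (∏ i, ClassGroup.mk0 (v i)) - Additive.ofMul C) := by
    intro χ
    rw [SQ_pow, Finset.mul_sum]
    refine Finset.sum_congr rfl fun v _ => ?_
    rw [sub_eq_add_neg, ← ofMul_inv, AddChar.map_add_eq_mul, mul_comm]
  rw [Finset.sum_congr rfl fun χ _ => h1 χ, Finset.sum_comm]
  have h2 : ∀ v : Fin k → nonZeroDivisors (Ideal (𝓞 K)),
      ∑ χ : Chr K, χ (Additive.ofMul (∏ i, ClassGroup.mk0 (v i)) - Additive.ofMul C) =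
        if ∏ i, ClassGroup.mk0 (v i) = C then (Nat.card (ClassGroup (𝓞 K)) : ℂ) else 0 := by
    intro v
    rw [AddChar.sum_apply_eq_ite, ← card_add]
    by_cases h : ∏ i, ClassGroup.mk0 (v i) = C
    · rw [if_pos h, if_pos (by rw [h, sub_self])]
    · rw [if_neg h, if_neg]
      intro h'
      exact h (Additive.ofMul.injective (sub_eq_zero.1 h'))
  rw [Finset.sum_congr rfl fun v _ => h2 v, ← Finset.sum_filter, Finset.sum_const, nsmul_eq_mul,
    mul_comm]
  rfl

/-- Parseval for the number of collisions -/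
theorem coll_card {K : Type} [Field K] [NumberField K]
    (Q : Finset (nonZeroDivisors (Ideal (𝓞 K)))) (k : ℕ) :
    (Nat.card (ClassGroup (𝓞 K)) : ℝ) * (coll K Q k).card = ∑ χ : Chr K, ‖SQ Q χ‖ ^ (2 * k) := by
  set N : Additive (ClassGroup (𝓞 K)) → ℂ := fun g => (((tup K Q k g.toMul).card : ℕ) : ℂ) with hN
  have h1 := parseval N
  have h2 : ∀ χ : Chr K, ∑ g, N g * χ g = SQ Q χ ^ k := by
    intro χ
    rw [SQ_pow, ← Finset.sum_fiberwise_of_maps_to (s := Fintype.piFinset (fun _ : Fin k => Q))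
      (t := (Finset.univ : Finset (Additive (ClassGroup (𝓞 K)))))
      (g := fun v => Additive.ofMul (∏ i, ClassGroup.mk0 (v i))) (fun _ _ => Finset.mem_univ _)]
    refine Finset.sum_congr rfl fun g _ => ?_
    rw [Finset.sum_congr rfl (g := fun _ => χ g)
      (fun v hv => by rw [(Finset.mem_filter.1 hv).2]), Finset.sum_const, nsmul_eq_mul]
    rfl
  have h3 : ∀ χ : Chr K, ‖∑ g, N g * χ g‖ ^ 2 = ‖SQ Q χ‖ ^ (2 * k) := by
    intro χ
    rw [h2, norm_pow, ← pow_mul, mul_comm k 2]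
  rw [Finset.sum_congr rfl fun χ _ => h3 χ] at h1
  rw [h1]
  have h5 : (Fintype.card (Additive (ClassGroup (𝓞 K))) : ℝ) = Nat.card (ClassGroup (𝓞 K)) := by
    rw [← Nat.card_eq_fintype_card]
    rfl
  rw [h5]
  congr 1
  have h4 : (coll K Q k).card =
      ∑ g : Additive (ClassGroup (𝓞 K)), (tup K Q k g.toMul).card ^ 2 := by
    unfold coll
    rw [Finset.card_eq_sum_card_fiberwise
      (t := (Finset.univ : Finset (Additive (ClassGroup (𝓞 K)))))
      (f := fun x => Additive.ofMul (∏ i, ClassGroup.mk0 (x.1 i)))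
      (fun _ _ => Finset.mem_coe.2 (Finset.mem_univ _))]
    refine Finset.sum_congr rfl fun g _ => ?_
    rw [sq, ← Finset.card_product]
    congr 1
    unfold tup
    ext ⟨u, v⟩
    simp only [Finset.mem_filter, Finset.mem_product]
    constructor
    · rintro ⟨⟨⟨h1, h2⟩, h3⟩, h4⟩
      have h5 : ∏ i, ClassGroup.mk0 (u i) = g.toMul := by
        rw [← h4]
        rfl
      exact ⟨⟨h1, h5⟩, h2, by rw [← h3]; exact h5⟩
    · rintro ⟨⟨h1, h2⟩, h3, h4⟩
      refine ⟨⟨⟨h1, h3⟩, h2.trans h4.symm⟩, ?_⟩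
      rw [h2]
      rfl
  rw [h4]
  push_cast
  refine Finset.sum_congr rfl fun g _ => ?_
  rw [hN, Complex.norm_natCast]

theorem SQ_le {K : Type} [Field K] [NumberField K]
    (Q : Finset (nonZeroDivisors (Ideal (𝓞 K)))) (χ : Chr K) : ‖SQ Q χ‖ ≤ Q.card := by
  unfold SQ
  refine (norm_sum_le _ _).trans (le_of_eq ?_)
  rw [Finset.sum_congr rfl fun P _ => AddChar.norm_apply χ _, Finset.sum_const, nsmul_eq_mul,
    mul_one]

/-- the sum of the powers of the character sums -/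
theorem sum_pow_le {K : Type} [Field K] [NumberField K]
    (Q : Finset (nonZeroDivisors (Ideal (𝓞 K)))) (E M : ℝ) (hE : 0 ≤ E)
    (hM : (((Finset.univ : Finset (Chr K)).filter (fun χ => E ≤ ‖SQ Q χ‖)).card : ℝ) ≤ M) (k : ℕ) :
    ∑ χ : Chr K, ‖SQ Q χ‖ ^ k ≤ M * (Q.card : ℝ) ^ k + Nat.card (ClassGroup (𝓞 K)) * E ^ k := by
  rw [← Finset.sum_filter_add_sum_filter_not Finset.univ (fun χ : Chr K => E ≤ ‖SQ Q χ‖)]
  apply add_le_add
  · calc _ ≤ ∑ χ ∈ (Finset.univ : Finset (Chr K)).filter (fun χ => E ≤ ‖SQ Q χ‖),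
          (Q.card : ℝ) ^ k :=
          Finset.sum_le_sum fun χ _ => pow_le_pow_left₀ (norm_nonneg _) (SQ_le Q χ) k
      _ = (((Finset.univ : Finset (Chr K)).filter (fun χ => E ≤ ‖SQ Q χ‖)).card : ℝ) *
          (Q.card : ℝ) ^ k := by rw [Finset.sum_const, nsmul_eq_mul]
      _ ≤ _ := mul_le_mul_of_nonneg_right hM (by positivity)
  · calc _ ≤ ∑ χ ∈ (Finset.univ : Finset (Chr K)).filter (fun χ => ¬ E ≤ ‖SQ Q χ‖), E ^ k :=
          Finset.sum_le_sum fun χ hχ => pow_le_pow_left₀ (norm_nonneg _)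
            (not_le.1 (Finset.mem_filter.1 hχ).2).le k
      _ = (((Finset.univ : Finset (Chr K)).filter (fun χ => ¬ E ≤ ‖SQ Q χ‖)).card : ℝ) * E ^ k := by
          rw [Finset.sum_const, nsmul_eq_mul]
      _ ≤ _ := by
          apply mul_le_mul_of_nonneg_right _ (by positivity)
          rw [← card_chr]
          exact_mod_cast (Finset.card_filter_le _ _).trans (le_of_eq Finset.card_univ)

theorem tup_le {K : Type} [Field K] [NumberField K]
    (Q : Finset (nonZeroDivisors (Ideal (𝓞 K)))) (E M : ℝ) (hE : 0 ≤ E)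
    (hM : (((Finset.univ : Finset (Chr K)).filter (fun χ => E ≤ ‖SQ Q χ‖)).card : ℝ) ≤ M) (k : ℕ)
    (C : ClassGroup (𝓞 K)) :
    ((tup K Q k C).card : ℝ) ≤ M / Nat.card (ClassGroup (𝓞 K)) * (Q.card : ℝ) ^ k + E ^ k := by
  have hh : (0 : ℝ) < Nat.card (ClassGroup (𝓞 K)) := by exact_mod_cast Nat.card_pos
  have h1 := tup_card Q k C
  have h2 : (Nat.card (ClassGroup (𝓞 K)) : ℝ) * (tup K Q k C).card ≤
      ∑ χ : Chr K, ‖SQ Q χ‖ ^ k := by
    have h3 : (Nat.card (ClassGroup (𝓞 K)) : ℝ) * (tup K Q k C).card =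
        ‖(Nat.card (ClassGroup (𝓞 K)) : ℂ) * (tup K Q k C).card‖ := by
      rw [norm_mul, Complex.norm_natCast, Complex.norm_natCast]
    rw [h3, h1]
    refine (norm_sum_le _ _).trans (le_of_eq ?_)
    refine Finset.sum_congr rfl fun χ _ => ?_
    rw [norm_mul, AddChar.norm_apply, one_mul, norm_pow]
  have h3 := h2.trans (sum_pow_le Q E M hE hM k)
  have h4 : (Nat.card (ClassGroup (𝓞 K)) : ℝ) * (M / Nat.card (ClassGroup (𝓞 K)) *
      (Q.card : ℝ) ^ k + E ^ k) = M * (Q.card : ℝ) ^ k + Nat.card (ClassGroup (𝓞 K)) * E ^ k := by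
    field_simp
  rw [← h4] at h3
  exact le_of_mul_le_mul_left h3 hh

theorem coll_le {K : Type} [Field K] [NumberField K]
    (Q : Finset (nonZeroDivisors (Ideal (𝓞 K)))) (E M : ℝ) (hE : 0 ≤ E)
    (hM : (((Finset.univ : Finset (Chr K)).filter (fun χ => E ≤ ‖SQ Q χ‖)).card : ℝ) ≤ M)
    (k : ℕ) :
    (Q.card : ℝ) ^ (2 * k) ≤ Nat.card (ClassGroup (𝓞 K)) * ((coll K Q k).card : ℝ) ∧
    Nat.card (ClassGroup (𝓞 K)) * ((coll K Q k).card : ℝ) ≤
      M * (Q.card : ℝ) ^ (2 * k) + Nat.card (ClassGroup (𝓞 K)) * E ^ (2 * k) := by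
  rw [coll_card]
  refine ⟨?_, sum_pow_le Q E M hE hM (2 * k)⟩
  have h1 : ‖SQ Q (1 : Chr K)‖ ^ (2 * k) ≤ ∑ χ : Chr K, ‖SQ Q χ‖ ^ (2 * k) :=
    Finset.single_le_sum (f := fun χ : Chr K => ‖SQ Q χ‖ ^ (2 * k))
      (fun χ _ => by positivity) (Finset.mem_univ _)
  have h2 : ‖SQ Q (1 : Chr K)‖ = Q.card := by
    unfold SQ
    rw [Finset.sum_congr rfl fun P _ => AddChar.one_apply _, Finset.sum_const, nsmul_eq_mul,
      mul_one, Complex.norm_natCast]
  rwa [h2] at h1

end Pool.Agent.H977.CS
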